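import Pool.Agent.NH23.TwD

/-!
# Towers `a ^ (b ^ x)` and `x ^ (x ^ x)` with very well approximable `x`

The number of the problem is the tower `a ^ (b ^ x)` for `a = b = x = √2`. We prove the transcendence of `a ^ (b ^ x)`,
for all algebraic `a, b > 0` different from `1`, when the top entry `x` is an irrational number with extremely good
rational approximations; also of `x ^ (x ^ x)`, and more.

Let `q_0, q_1, …` be a sequence of integers `≥ 2`, and let `tower h` be the `h`-fold iterate of `n ↦ 2 ^ n`. A
real number is *rationally approximable* if, for some `h` and every `κ`, for all large `k` there is a fraction with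
denominator at most `tower h (q_k)` at a distance of at most `1 / tower κ (q_k)`. A complex number is *approximable* if
the same holds with algebraic numbers of degree and height at most `tower h (q_k)`. The approximable numbers form an
algebraically closed field `K` which contains with `a ≠ 0` and a rationally approximable `x` all values of `a ^ x`
(`MP_9cd479_nt.PowerClosedFields`).

Theorem. Let `x` be rationally approximable and irrational, and `b > 0` algebraic and different from `1`, or `b = x > 0`.
Let `a = exp l`, `l ≠ 0`, be an element of `K`, and let `y_1, …, y_m` be rationally approximable and linearly independent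
over `ℚ`. Then the numbers `a ^ (y_i b ^ x) = exp (y_i b ^ x l)` are algebraically independent over `K`. For `m = 1`,
`y_1 = 1`: the tower `a ^ (b ^ x)` is transcendental over `K`, which contains `a`, `b`, `x` and `b ^ x`.

The sum of the numbers `1 / q_k`, `q_k = 2 ^ e_k`, `e_0 = 1`, `e_(k + 1) = tower (k + 2) (e_k)`, over any infinite set of
`k` is an example of such a number `x`; for example `√2 ^ (√2 ^ x)` and `x ^ (x ^ x)` are transcendental.

The proof uses a quantitative Gelfond-Schneider theorem, uniform in all parameters (`Pool.Agent.R347.GS.gs`), a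
dichotomy for the field `K` (`Pool.Agent.R347.LW.dich`), and the fact, proved here, that the numbers `b ^ x` are not
rationally approximable: otherwise `b ^ s` would be rational for fractions `s` with arbitrarily large denominators.
-/

set_option autoImplicit false

open Pool.Agent

namespace Pool.Agent.Results.MP_93d8d2_nt.LiouvilleTowers

/-- The `h`-fold iterate of `n ↦ 2 ^ n`. -/
def tower : ℕ → ℕ → ℕ
  | 0, q => q
  | h + 1, q => 2 ^ tower h q

/-- `a` is a zero of a nonzero polynomial over `ℤ` of degree at most `N` whose coefficients have absolute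
value at most `N`. -/
def Bounded (N : ℕ) (a : ℂ) : Prop :=
  ∃ P : Polynomial ℤ, P ≠ 0 ∧ P.natDegree ≤ N ∧ (∀ n, |P.coeff n| ≤ N) ∧ Polynomial.aeval a P = 0

/-- For some `h` and every `κ`, for all large `k` the number `z` has an algebraic approximation of
complexity at most `tower h (q k)` and with an error of at most `1 / tower κ (q k)`. -/
def Approximable (q : ℕ → ℕ) (z : ℂ) : Prop :=
  ∃ h : ℕ, ∀ κ : ℕ, ∃ k₀ : ℕ, ∀ k ≥ k₀, ∃ a : ℂ, Bounded (tower h (q k)) a ∧
    ‖z - a‖ ≤ ((tower κ (q k) : ℕ) : ℝ)⁻¹

/-- For some `h` and every `κ`, for all large `k` the real number `x` has a rational approximation with a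
denominator at most `tower h (q k)` and with an error of at most `1 / tower κ (q k)`. -/
def RationallyApproximable (q : ℕ → ℕ) (x : ℝ) : Prop :=
  ∃ h : ℕ, ∀ κ : ℕ, ∃ k₀ : ℕ, ∀ k ≥ k₀, ∃ (u : ℤ) (v : ℕ), 1 ≤ v ∧ v ≤ tower h (q k) ∧
    |x - u / v| ≤ ((tower κ (q k) : ℕ) : ℝ)⁻¹

/-- The exponents `e_0 = 1`, `e_(k + 1) = tower (k + 2) (e_k)`. -/
def e : ℕ → ℕ
  | 0 => 1
  | k + 1 => tower (k + 2) (e k)

/-- The explicit sequence `q_k = 2 ^ e_k`. -/
def q₀ (k : ℕ) : ℕ := 2 ^ e k

/-- The sum of the numbers `1 / q_k` over the elements `k` of the set `A`. -/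
noncomputable def number (A : Set ℕ) : ℝ :=
  ∑' k, Set.indicator A (fun k => 1 / (q₀ k : ℝ)) k

theorem tower_eq : tower = R347.LW.tow := by
  funext h q
  induction h with
  | zero => rfl
  | succ h ih => rw [tower, R347.LW.tow, ih]

theorem approximable_iff (q : ℕ → ℕ) (z : ℂ) : Approximable q z ↔ R347.LW.Appr q z := by
  unfold Approximable R347.LW.Appr
  rw [tower_eq]
  rfl

theorem rationallyApproximable_iff (q : ℕ → ℕ) (x : ℝ) : RationallyApproximable q x ↔ R347.LW.RAppr q x := by
  unfold RationallyApproximable R347.LW.RAppr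
  rw [tower_eq]

theorem e_eq : e = R347.LW.eT := by
  funext k
  induction k with
  | zero => rfl
  | succ k ih => rw [e, R347.LW.eT, ih, tower_eq]

theorem q₀_eq : q₀ = R347.LW.qT := by
  funext k
  rw [q₀, R347.LW.qT, e_eq]

theorem number_eq : number = R347.LW.xiT := by
  funext A
  rw [number, R347.LW.xiT]
  refine tsum_congr fun k => ?_
  have h1 : 1 / (q₀ k : ℝ) = (1 / 2 : ℝ) ^ R347.LW.eT k := by
    rw [q₀, e_eq]
    push_cast
    rw [one_div, one_div, inv_pow]
  by_cases h : k ∈ A
  · rw [Set.indicator_of_mem h, R347.LW.trT_of_mem h, h1]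
  · rw [Set.indicator_of_notMem h, R347.LW.trT_of_notMem h]

/-- **Theorem.** The approximable numbers form an algebraically closed field `K`. Let `x` be rationally approximable
and irrational, and let `b > 0` be algebraic and different from `1`, or equal to `x`. Then `x` and `b ^ x` are in `K`,
and for all `l ≠ 0` with `exp l` in `K` and all rationally approximable numbers `y_1, …, y_m` which are linearly
independent over `ℚ` the numbers `exp (y_i b ^ x l)` are algebraically independent over `K`. For the explicit sequence
`q_k = 2 ^ e_k` and every infinite set `A` the sum of the numbers `1 / q_k` over `A` is rationally approximable and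
irrational. -/
theorem result :
    (∀ q : ℕ → ℕ, (∀ k, 2 ≤ q k) → ∃ K : IntermediateField ℚ ℂ, (∀ z, z ∈ K ↔ Approximable q z) ∧ IsAlgClosed K ∧
      ∀ b x : ℝ, RationallyApproximable q x → Irrational x → 0 < b → ((IsAlgebraic ℚ b ∧ b ≠ 1) ∨ b = x) →
        (x : ℂ) ∈ K ∧ ((b ^ x : ℝ) : ℂ) ∈ K ∧
        ∀ l : ℂ, l ≠ 0 → Complex.exp l ∈ K → ∀ (m : ℕ) (y : Fin m → ℝ), (∀ i, RationallyApproximable q (y i)) →
          LinearIndependent ℚ y →
          AlgebraicIndependent K (fun i => Complex.exp ((y i : ℂ) * ((b ^ x : ℝ) : ℂ) * l))) ∧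
    (∀ k, 2 ≤ q₀ k) ∧ ∀ A : Set ℕ, A.Infinite → RationallyApproximable q₀ (number A) ∧ Irrational (number A) := by
  refine ⟨fun q hq => ⟨R347.LW.UK hq, fun z => (approximable_iff q z).symm, R347.LW.UK_closed hq, ?_⟩, fun k => ?_,
    fun A hA => ⟨?_, ?_⟩⟩
  · intro b x hx hirr hb0 hb
    have hx' := (rationallyApproximable_iff q x).1 hx
    have hbA : R347.LW.Appr q (b : ℂ) := by
      rcases hb with h | rfl
      · exact NH23.Tw.Appr_alg hq (h.1.algebraMap (A := ℂ))
      · exact hx'.appr hq
    refine ⟨hx'.appr hq, NH23.Tw.Appr_pow hq hb0 hbA hx', fun l hl hel m y hy hli => ?_⟩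
    exact NH23.Tw.towers hq hb0 hx' hirr hb hl hel (fun i => (rationallyApproximable_iff q (y i)).1 (hy i)) hli
  · rw [q₀_eq]
    exact R347.LW.two_le_qT k
  · rw [rationallyApproximable_iff, q₀_eq, number_eq]
    exact R347.LW.xiT_rappr A
  · rw [number_eq]
    exact NH23.Tw.xiT_irr hA

end Pool.Agent.Results.MP_93d8d2_nt.LiouvilleTowers
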