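import Pool.Agent.NH76.TT.Tower2
import Pool.Agent.NH76.TT.Dich

/-!
# Linear recurrences and products of towers: all or almost none of the values are linear forms in logarithms

The number of the problem is the member `n = 1` of the family `√2 ^ (√2 ^ (√2 n))`, whose top entry
runs through the multiples of `√2`; the logarithm is `log √2 * X ^ n` with `X = √2 ^ √2`
transcendental. We consider all the sequences `F : ℕ → ℂ` which satisfy a linear recurrence with
constant complex coefficients.

(1) A dichotomy (of Skolem-Mahler-Lech type): let `0` be no root of the characteristic polynomial `q`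
and let no quotient of two different roots be a root of unity. Either all `F n` are linear forms in
`1` and logarithms of algebraic numbers with algebraic coefficients, or at most
`8 N ^ (1 - 2 ^ (1 - 2 deg q))` of any `N` consecutive `F n` are such forms.

(2) Of any `N` consecutive `n` at most `8 N ^ (1 - 2 ^ (1 - e - 2 m))` are such that
`exp (P n) * ∏ a_i ^ (b_i ^ (β_i n))` (`m` factors, `P` any complex polynomial of degree `< e`) is a
product of powers `e ^ γ α_1 ^ β_1 ⋯ α_k ^ β_k` with algebraic `γ, α_j, β_j`, in particular if it is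
algebraic. For `m = 1` and `e = 0` (towers) this is `8 √N`.

Proof. Let `V` be the space of the linear forms in logarithms and `A` the set of the `n` with
`F n ∈ V`. If `A` is large, there are many translates of one cube with `k` generators contained in
`A` (`Cnt`). Let `q = p t`, where the roots of `p` are algebraic and those of `t` are transcendental.

First let `F` not satisfy the recurrence of `p`. After combinations of translates with algebraic
coefficients, one for each algebraic root and each with one generator of the cube, we may suppose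
`p = 1` (`Ext`). Let `R = deg t` and let `E` be the shift. A solution which vanishes on a cube with
`R - 1` generators is zero: the spaces of the solutions vanishing on the smaller cubes decrease
strictly, because a nonzero subspace invariant under `E ^ d` contains a geometric sequence. In the same
way a solution with algebraic values on a cube with `2 R - 1` generators is zero: the spaces over the
field of algebraic numbers have dimension at most `R` and decrease strictly, because a nonzero finite
dimensional space over the algebraic numbers which is invariant under `E ^ d` would give algebraic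
roots (`Lin`, `Chain`). The hyperplane case of the linear subgroup theorem (Waldschmidt, Roy;
`TH160.TowP.rank_bound`) now bounds the number of the translates by the third power of the number of
the points of the cube (`Bound`).

If `F` satisfies the recurrence of `p` and some `F n` is not in `V`, we apply a linear form over the
algebraic numbers which vanishes on `V` and obtain a nonzero solution, with values in the algebraic
numbers, which vanishes on `A`, and there is no cube with `deg p - 1` generators in `A` (`Dich`).
-/

set_option autoImplicit false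

namespace Pool.Agent.Results.MP_93d8d2_nt.TopEntries

open Polynomial Finset

/-- The linear combinations, with algebraic coefficients, of `1` and of logarithms of algebraic
numbers. -/
noncomputable def LogForms : Submodule (algebraicClosure ℚ ℂ) ℂ :=
  Submodule.span (algebraicClosure ℚ ℂ) ({1} ∪ {z : ℂ | IsAlgebraic ℚ (Complex.exp z)})

/-- The numbers `e ^ z` with `z` in `LogForms`, i.e. the numbers `e ^ γ α_1 ^ β_1 ⋯ α_k ^ β_k` with
algebraic `γ`, `α_i ≠ 0`, `β_i`. -/
def Prods : Set ℂ := {x | ∃ z ∈ LogForms, Complex.exp z = x}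

/-- `F` satisfies the linear recurrence with characteristic polynomial `q`:
`q_0 F(n) + q_1 F(n + 1) + ⋯ + q_R F(n + R) = 0` for all `n`. -/
def Recurrence (q : ℂ[X]) (F : ℕ → ℂ) : Prop :=
  ∀ n, ∑ k ∈ range (q.natDegree + 1), q.coeff k * F (n + k) = 0

open Classical in
/-- **Main result.** -/
theorem result :
    (∀ (q : ℂ[X]) (F : ℕ → ℂ), q.eval 0 ≠ 0 →
      (∀ z w, q.eval z = 0 → q.eval w = 0 → ∀ d : ℕ, 0 < d → z ^ d = w ^ d → z = w) →
      Recurrence q F →
        (∀ n, F n ∈ LogForms) ∨
        ∀ y N : ℕ, 1 ≤ N → (((Ioc y (y + N)).filter fun n : ℕ => F n ∈ LogForms).card : ℝ) ≤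
          8 * (N : ℝ) ^ (1 - (1 / 2 : ℝ) ^ (2 * q.natDegree - 1))) ∧
    (∀ (e m : ℕ) (P : ℂ[X]) (a b β : Fin m → ℝ), P.degree < e → 0 < m →
      (∀ i, 0 < a i ∧ a i ≠ 1) → (∀ i, 0 < b i ∧ b i ≠ 1 ∧ IsAlgebraic ℚ (b i)) →
      (∀ i, IsAlgebraic ℚ (β i) ∧ Irrational (β i)) →
      Function.Injective (fun i => b i ^ β i) → ∀ y N : ℕ, 1 ≤ N →
        (((Ioc y (y + N)).filter fun n : ℕ =>
          Complex.exp (P.eval (n : ℂ)) * ((∏ i, a i ^ (b i ^ (β i * n)) : ℝ) : ℂ) ∈ Prods).card : ℝ) ≤
          8 * (N : ℝ) ^ (1 - (1 / 2 : ℝ) ^ (e + 2 * m - 1))) ∧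
    (∀ z γ δ : ℂ, z ∉ LogForms → IsAlgebraic ℚ γ → IsAlgebraic ℚ δ → δ ≠ 0 →
      Transcendental ℚ (Complex.exp (γ + δ * z))) := by
  have hmul : ∀ {a z : ℂ}, IsAlgebraic ℚ a → z ∈ LogForms → a * z ∈ LogForms :=
    fun {a z} ha hz => LogForms.smul_mem
      (⟨a, mem_algebraicClosure_iff.2 ha⟩ : algebraicClosure ℚ ℂ) hz
  have hone : (1 : ℂ) ∈ LogForms := Submodule.subset_span (Or.inl rfl)
  have hlog : ∀ {z : ℂ}, IsAlgebraic ℚ (Complex.exp z) → z ∈ LogForms :=
    fun hz => Submodule.subset_span (Or.inr hz)
  refine ⟨?_, ?_, ?_⟩
  · intro q F hq0 hnd hF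
    by_cases hall : ∀ n, F n ∈ LogForms
    · exact Or.inl hall
    · right
      intro y N hN
      push Not at hall
      obtain ⟨n0, hn0⟩ := hall
      have hq : q ≠ 0 := by
        rintro rfl
        exact hq0 eval_zero
      exact Pool.Agent.NH76.TT.dichotomy hq hq0 hnd (Pool.Agent.NH76.TT.mem_Rec_iff.2 hF) hn0 y N hN
  · intro e m P a b β hP hm ha hb hβ hinj y N hN
    have h1 := Pool.Agent.NH76.TT.towers2 e m P hP hm (fun i => ((Real.log (a i) : ℝ) : ℂ))
      (fun i => by
        have := Real.log_ne_zero_of_pos_of_ne_one (ha i).1 (ha i).2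
        exact_mod_cast this) b β (fun i => (hb i).1) (fun i => (hb i).2.1)
      (fun i => (hb i).2.2) (fun i => (hβ i).1) (fun i => (hβ i).2) hinj y N hN
    refine le_trans ?_ h1
    have h2 : ((Ioc y (y + N)).filter fun n : ℕ =>
        Complex.exp (P.eval (n : ℂ)) * ((∏ i, a i ^ (b i ^ (β i * n)) : ℝ) : ℂ) ∈ Prods) ⊆
        (Ioc y (y + N)).filter (fun n : ℕ =>
          P.eval (n : ℂ) + ∑ i, ((Real.log (a i) : ℝ) : ℂ) * ((b i ^ (β i * n) : ℝ) : ℂ) ∈
            Pool.Agent.H301R2.SSE.Lt) := by
      intro n hn
      rw [mem_filter] at hn ⊢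
      refine ⟨hn.1, ?_⟩
      obtain ⟨z, hz, hz2⟩ := hn.2
      set w : ℂ := P.eval (n : ℂ) + ∑ i, ((Real.log (a i) : ℝ) : ℂ) * ((b i ^ (β i * n) : ℝ) : ℂ)
        with hw
      have h3 : Complex.exp w = Complex.exp z := by
        rw [hz2, hw, Complex.exp_add, Complex.exp_sum]
        congr 1
        rw [Complex.ofReal_prod]
        refine Finset.prod_congr rfl fun i _ => ?_
        rw [← Complex.ofReal_mul, ← Complex.ofReal_exp, ← Real.rpow_def_of_pos (ha i).1]
      have h4 : IsAlgebraic ℚ (Complex.exp (w - z)) := by
        rw [Complex.exp_sub, h3, div_self (Complex.exp_ne_zero z)]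
        exact isAlgebraic_one
      have h5 := LogForms.add_mem (hlog h4) hz
      rw [sub_add_cancel] at h5
      exact h5
    exact_mod_cast card_le_card h2
  · intro z γ δ hz hγ hδ hδ0 hcon
    refine hz ?_
    have h1 := hlog hcon
    have h2 := LogForms.sub_mem h1 (hmul hγ hone)
    rw [mul_one, add_sub_cancel_left] at h2
    have h3 := hmul hδ.inv h2
    rwa [← mul_assoc, inv_mul_cancel₀ hδ0, one_mul] at h3

end Pool.Agent.Results.MP_93d8d2_nt.TopEntries
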